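import Mathlib
import Pool.Agent.Y18.GX.Red
import Pool.Agent.Y18.GX.Dec

/-!
# A decidable criterion for the levels `3^K`
-/

set_option autoImplicit false

namespace Pool.Agent.R480.PT

open Finset Polynomial Pool.Agent.Y18.GX

/-- `∑_{i < n} i ^ e` modulo `p` -/
def ps (p e : ℕ) : ℕ → ℕ
  | 0 => 0
  | n + 1 => (ps p e n + n ^ e) % p

/-- the residue of `(b + 3^(K-1) t) / 3^K` modulo `p` -/
def xx (p K b t : ℕ) : ℕ := ((b + 3 ^ (K - 1) * t) * (3 ^ K) ^ (p - 2)) % p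

/-- the norm form of the three sums does not vanish modulo `p` -/
def goodb (p K m b : ℕ) : Bool :=
  let d0 := ps p (m - 1) (xx p K b 0)
  let d1 := ps p (m - 1) (xx p K b 1)
  let d2 := ps p (m - 1) (xx p K b 2)
  (d0 ^ 2 + d1 ^ 2 + d2 ^ 2) % p != (d0 * d1 + d0 * d2 + d1 * d2) % p

/-- the condition at the level `3^K` -/
def good (p K m : ℕ) : Bool := goodb p K m 1 || (Nat.ble 3 K && goodb p K m 4)

/-- the condition for `K = 1` -/
def good1 (p m : ℕ) : Bool :=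
  ps p (m - 1) (3 ^ (p - 2) % p) != ps p (m - 1) (2 * 3 ^ (p - 2) % p)

/-- all conditions for `2 ≤ K ≤ K₀`, and for `K = 1` -/
def crit (p K₀ : ℕ) : Bool :=
  (List.range (p - 1)).all fun i =>
    (i % 2 == 1 || good1 p (i + 1)) &&
    (List.range (K₀ - 1)).all fun j => Nat.ble (9 * (i + 1)) (3 ^ (j + 2)) || good p (j + 2) (i + 1)

lemma crit_good {p K₀ : ℕ} (h : crit p K₀ = true) {K m : ℕ} (hK : 2 ≤ K) (hK0 : K ≤ K₀) (hm : 1 ≤ m)
    (hmp : m < p) (hs : 3 ^ K < 9 * m) : good p K m = true := by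
  unfold crit at h
  rw [List.all_eq_true] at h
  have h1 := h (m - 1) (List.mem_range.2 (by omega))
  rw [Bool.and_eq_true, List.all_eq_true] at h1
  have h2 := h1.2 (K - 2) (List.mem_range.2 (by omega))
  have e1 : K - 2 + 2 = K := by omega
  have e2 : m - 1 + 1 = m := by omega
  rw [e1, e2, Bool.or_eq_true] at h2
  rcases h2 with h2 | h2
  · have := Nat.le_of_ble_eq_true h2
    omega
  · exact h2

lemma crit_good1 {p K₀ : ℕ} (h : crit p K₀ = true) {m : ℕ} (hm : Odd m)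
    (hmp : m < p) : good1 p m = true := by
  unfold crit at h
  rw [List.all_eq_true] at h
  obtain ⟨j, hj⟩ := hm
  have h1 := h (m - 1) (List.mem_range.2 (by omega))
  rw [Bool.and_eq_true, Bool.or_eq_true] at h1
  have e2 : m - 1 + 1 = m := by omega
  rw [e2] at h1
  rcases h1.1 with h2 | h2
  · have h3 : (m - 1) % 2 = 1 := by simpa using h2
    omega
  · exact h2

section

variable {k : Type*} [Field k]

lemma ps_cast (p e : ℕ) [CharP k p] (n : ℕ) : ((ps p e n : ℕ) : k) = ∑ i ∈ range n, (i : k) ^ e := by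
  induction n with
  | zero => simp [ps]
  | succ n ih =>
    rw [ps, Finset.sum_range_succ, ← CharP.cast_eq_mod k p, Nat.cast_add, ih, Nat.cast_pow]

lemma FF_int (m X : ℕ) (hm : 1 ≤ m) :
    (FF m).eval (X : ℤ) = (m.factorial : ℤ) * (m * ∑ i ∈ range X, (i : ℤ) ^ (m - 1)) := by
  have h2 := congrArg (fun f => f.eval ((X : ℤ) : ℚ)) (FF_map m)
  simp only [eval_mul, eval_C, eval_sub] at h2
  have h3 : (((FF m).eval (X : ℤ) : ℤ) : ℚ) = ((FF m).map (Int.castRingHom ℚ)).eval ((X : ℤ) : ℚ) := by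
    rw [eval_map, eval₂_at_intCast]
    rfl
  obtain ⟨n, rfl⟩ : ∃ n, m = n + 1 := ⟨m - 1, by omega⟩
  have h4 := Polynomial.sum_range_pow_eq_bernoulli_sub X n
  have h5 : (((FF (n + 1)).eval (X : ℤ) : ℤ) : ℚ) =
      (((n + 1).factorial : ℤ) * (((n + 1 : ℕ) : ℤ) * ∑ i ∈ range X, (i : ℤ) ^ (n + 1 - 1)) : ℤ) := by
    rw [h3, h2]
    push_cast
    have h6 : ((n : ℚ) + 1) * ∑ k ∈ range X, (k : ℚ) ^ n =
      (Polynomial.bernoulli (n + 1)).eval (X : ℚ) - _root_.bernoulli (n + 1) := by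
      rw [← h4]
    rw [h6]
  exact_mod_cast h5

lemma FF_nat (m X : ℕ) (hm : 1 ≤ m) :
    aeval ((X : ℕ) : k) (FF m) = (m.factorial : ℕ) * (m * ∑ i ∈ range X, (i : k) ^ (m - 1)) := by
  have h1 : aeval ((X : ℕ) : k) (FF m) = (((FF m).eval (X : ℤ) : ℤ) : k) := by
    have h := Polynomial.aeval_algebraMap_apply k (X : ℤ) (FF m)
    simpa using h
  rw [h1, FF_int m X hm]
  push_cast
  rfl

lemma pow_card {p a : ℕ} [CharP k p] (hp : p.Prime) (ha : ¬ p ∣ a) : ((a : ℕ) : k) ^ (p - 1) = 1 := by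
  have h1 : a ^ (p - 1) ≡ 1 [MOD p] := by
    have := Nat.ModEq.pow_totient ((Nat.Prime.coprime_iff_not_dvd hp).2 ha).symm
    rwa [Nat.totient_prime hp] at this
  have h2 : ((a ^ (p - 1) : ℕ) : k) = ((1 : ℕ) : k) := by
    rw [CharP.cast_eq_mod k p (a ^ (p - 1)), CharP.cast_eq_mod k p 1, h1]
  push_cast at h2
  exact h2

lemma inv_cast {p a c : ℕ} [CharP k p] (hp : p.Prime) (ha : ¬ p ∣ a) :
    (((c * a ^ (p - 2)) % p : ℕ) : k) = (c : k) / (a : ℕ) := by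
  have h0 : ((a : ℕ) : k) ≠ 0 := fun h => ha ((CharP.cast_eq_zero_iff k p a).1 h)
  rw [← CharP.cast_eq_mod k p, Nat.cast_mul, Nat.cast_pow, eq_div_iff h0, mul_assoc, ← pow_succ]
  have h2 := hp.two_le
  have : p - 2 + 1 = p - 1 := by omega
  rw [this, pow_card hp ha, mul_one]

/-- the norm form -/
lemma norm_form {ξ d0 d1 d2 : k} (hξ : ξ ^ 2 + ξ + 1 = 0) (h : d0 + d1 * ξ + d2 * ξ ^ 2 = 0) :
    d0 ^ 2 + d1 ^ 2 + d2 ^ 2 = d0 * d1 + d0 * d2 + d1 * d2 := by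
  have h3 : ξ ^ 3 = 1 := by linear_combination (ξ - 1) * hξ
  have h1 : (d0 + d1 * ξ + d2 * ξ ^ 2) * (d0 + d1 * ξ ^ 2 + d2 * ξ) = 0 := by rw [h, zero_mul]
  have h4 : ξ ^ 4 = ξ := by
    calc ξ ^ 4 = ξ ^ 3 * ξ := by ring
      _ = ξ := by rw [h3, one_mul]
  have h5 : (d0 + d1 * ξ + d2 * ξ ^ 2) * (d0 + d1 * ξ ^ 2 + d2 * ξ) =
      d0 ^ 2 + (d1 ^ 2 + d2 ^ 2) * ξ ^ 3 + (d0 * d1 + d0 * d2) * (ξ + ξ ^ 2) +
        d1 * d2 * (ξ ^ 2 + ξ ^ 4) := by ring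
  rw [h5, h3, h4] at h1
  linear_combination h1 - (d0 * d1 + d0 * d2 + d1 * d2) * hξ

/-- nonvanishing of the sums for the levels `3^K`, `K ≥ 2` -/
lemma smallb {p K m : ℕ} [CharP k p] (hp : p.Prime) (hp9 : p % 9 = 2 ∨ p % 9 = 5) (hp2 : p ≠ 2)
    (hK : 2 ≤ K) (hm : 1 ≤ m) (hmp : m < p) (b : ℕ) (hb : b < 3 ^ (K - 1)) (hb1 : b % 3 = 1)
    (hg : goodb p K m b = true) (χ₁ : MulChar (ZMod 1) k) (χ₂ : MulChar (ZMod (3 ^ K)) k)
    (hprim : χ₂ ((1 + 3 ^ (K - 1) : ℕ) : ZMod (3 ^ K)) ≠ 1) (hpar : χ₁ (-1) * χ₂ (-1) = (-1) ^ m) :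
    ∑ a ∈ range (1 * 3 ^ K), χ₁ (a : ZMod 1) * χ₂ (a : ZMod (3 ^ K)) *
      Polynomial.aeval ((a : k) / (1 * 3 ^ K : ℕ)) (FF m) ≠ 0 := by
  intro hS
  have : Fact (Nat.Prime p) := ⟨hp⟩
  have hp3 : ¬ p ∣ 3 := by
    intro h
    have := (Nat.prime_dvd_prime_iff_eq hp Nat.prime_three).1 h
    omega
  have hχ : ∀ x : ZMod 1, χ₁ x = 1 := fun x => by rw [Subsingleton.elim x 1, map_one]
  have h3k : ((3 : ℕ) : k) ≠ 0 := fun h => hp3 ((CharP.cast_eq_zero_iff k p 3).1 h)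
  have hsq : p ^ 2 % 9 = 4 ∨ p ^ 2 % 9 = 7 := by
    rw [Nat.pow_mod]
    rcases hp9 with h | h <;> rw [h] <;> norm_num
  have hsq1 : 1 ≤ p ^ 2 := Nat.one_le_pow _ _ hp.pos
  have key := class_zero (p := p) (ℓ := 3) (n := 1) (K := K) (N₁ := 1) (g := 2) (m := m)
    (u := (p ^ 2 - 1) / 3) χ₁ χ₂
    hp2 (Or.inl ⟨rfl, by omega⟩) le_rfl (by omega) (by norm_num) (by rw [pow_one]; omega)
    ((Nat.Prime.coprime_iff_not_dvd Nat.prime_three).2 (by omega)).symm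
    (fun a => by rw [hχ, one_pow]) hprim (by norm_num) (by norm_num) (by simp) h3k (FF m) _
    (fun x => FF_aeval_refl m x) hpar hS b hb (by rw [pow_one]; exact hb1)
  have hξ3 := psi_M_pow (n := 1) χ₂ (by omega)
  rw [pow_one] at hξ3
  set ξ := χ₂ ((1 + 3 ^ (K - 1) : ℕ) : ZMod (3 ^ K)) with hξ
  have hξ2 : ξ ^ 2 + ξ + 1 = 0 := by
    have h1 : (ξ - 1) * (ξ ^ 2 + ξ + 1) = 0 := by linear_combination hξ3
    rcases mul_eq_zero.1 h1 with h2 | h2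
    · exact absurd (sub_eq_zero.1 h2) hprim
    · exact h2
  have hp3K : ¬ p ∣ 3 ^ K := fun h => hp3 (hp.dvd_of_dvd_pow h)
  have hx : ∀ t : ℕ, (((b + 3 ^ (K - 1) * t : ℕ)) : k) / ((3 ^ K : ℕ) : k) = ((xx p K b t : ℕ) : k) := by
    intro t
    rw [xx, inv_cast hp hp3K]
  simp only [hχ, one_mul, pow_one] at key
  have e3 : range 3 = {0, 1, 2} := by decide
  rw [e3, Finset.sum_insert (by decide), Finset.sum_insert (by decide), Finset.sum_singleton,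
    hx, hx, hx, FF_nat m _ hm, FF_nat m _ hm, FF_nat m _ hm, ← ps_cast p, ← ps_cast p, ← ps_cast p]
    at key
  set d0 := ps p (m - 1) (xx p K b 0)
  set d1 := ps p (m - 1) (xx p K b 1)
  set d2 := ps p (m - 1) (xx p K b 2)
  have hmk : ((m : ℕ) : k) ≠ 0 := fun h => by
    have := Nat.le_of_dvd (by omega) ((CharP.cast_eq_zero_iff k p m).1 h)
    omega
  have hfk : ((m.factorial : ℕ) : k) ≠ 0 := fun h => by
    have := (hp.dvd_factorial).1 ((CharP.cast_eq_zero_iff k p m.factorial).1 h)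
    omega
  have h1 : ((m.factorial : ℕ) : k) * ((m : ℕ) : k) * ((d0 : k) + d1 * ξ + d2 * ξ ^ 2) = 0 := by
    linear_combination key
  have h2 : (d0 : k) + d1 * ξ + d2 * ξ ^ 2 = 0 :=
    (mul_eq_zero.1 h1).resolve_left (mul_ne_zero hfk hmk)
  have h3 := norm_form hξ2 h2
  have h4 : ((d0 ^ 2 + d1 ^ 2 + d2 ^ 2 : ℕ) : k) = ((d0 * d1 + d0 * d2 + d1 * d2 : ℕ) : k) := by
    push_cast
    exact h3
  have h5 : (d0 ^ 2 + d1 ^ 2 + d2 ^ 2) % p = (d0 * d1 + d0 * d2 + d1 * d2) % p :=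
    (CharP.natCast_eq_natCast (R := k) p).1 h4
  have h6 : ((d0 ^ 2 + d1 ^ 2 + d2 ^ 2) % p != (d0 * d1 + d0 * d2 + d1 * d2) % p) = true := hg
  rw [h5] at h6
  simp at h6

lemma small {p K m : ℕ} [CharP k p] (hp : p.Prime) (hp9 : p % 9 = 2 ∨ p % 9 = 5) (hp2 : p ≠ 2)
    (hK : 2 ≤ K) (hm : 1 ≤ m) (hmp : m < p) (hg : good p K m = true)
    (χ₁ : MulChar (ZMod 1) k) (χ₂ : MulChar (ZMod (3 ^ K)) k)
    (hprim : χ₂ ((1 + 3 ^ (K - 1) : ℕ) : ZMod (3 ^ K)) ≠ 1) (hpar : χ₁ (-1) * χ₂ (-1) = (-1) ^ m) :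
    ∑ a ∈ range (1 * 3 ^ K), χ₁ (a : ZMod 1) * χ₂ (a : ZMod (3 ^ K)) *
      Polynomial.aeval ((a : k) / (1 * 3 ^ K : ℕ)) (FF m) ≠ 0 := by
  unfold good at hg
  rw [Bool.or_eq_true, Bool.and_eq_true] at hg
  rcases hg with hg | ⟨h3, hg⟩
  · exact smallb hp hp9 hp2 hK hm hmp 1 (Nat.one_lt_pow (by omega) (by norm_num)) (by norm_num) hg
      χ₁ χ₂ hprim hpar
  · have h3' := Nat.le_of_ble_eq_true h3
    refine smallb hp hp9 hp2 hK hm hmp 4 ?_ (by norm_num) hg χ₁ χ₂ hprim hpar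
    calc 4 < 3 ^ 2 := by norm_num
      _ ≤ 3 ^ (K - 1) := Nat.pow_le_pow_right (by norm_num) (by omega)

end

end Pool.Agent.R480.PT
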