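import Mathlib
import Pool.Agent.R480.PT.Crit

/-!
# The level `3`
-/

set_option autoImplicit false

namespace Pool.Agent.R480.PT

open Finset Polynomial Pool.Agent.Y18.GX

theorem val_one {p m : ℕ} (hp : p.Prime) (hp2 : p ≠ 2) (hp3 : p ≠ 3) (hm : Odd m) (hmp : m < p)
    (hg : good1 p m = true) (B : ValuationSubring ℂ) (hB : B.valuation (p : ℂ) < 1) :
    B.valuation ((1 + (p : ℂ) ^ (m - 1)) * ((3 : ℂ) ^ (m - 1) *
      ((((Polynomial.bernoulli m).eval ((1 : ℚ) / 3) : ℚ) : ℂ) -
        (((Polynomial.bernoulli m).eval ((2 : ℚ) / 3) : ℚ) : ℂ))) / m) = 1 := by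
  have hm1 : 1 ≤ m := hm.pos
  have hch := charP_res B hp hB
  set ρ := IsLocalRing.residue B with hρ
  have hpm : ¬ p ∣ m := fun h => by
    have := Nat.le_of_dvd (by omega) h
    omega
  have hpf : ¬ p ∣ m.factorial := fun h => by
    have := (hp.dvd_factorial).1 h
    omega
  have hpd3 : ¬ p ∣ 3 := fun h => hp3 ((Nat.prime_dvd_prime_iff_eq hp Nat.prime_three).1 h)
  have hnk : ∀ n : ℕ, ¬ p ∣ n → ((n : ℕ) : IsLocalRing.ResidueField B) ≠ 0 := fun n hn h =>
    hn ((CharP.cast_eq_zero_iff (IsLocalRing.ResidueField B) p n).1 h)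
  have hp0 : ((p : ℕ) : IsLocalRing.ResidueField B) = 0 :=
    (CharP.cast_eq_zero_iff (IsLocalRing.ResidueField B) p p).2 dvd_rfl
  -- the Euler factor
  have hE : B.valuation (1 + (p : ℂ) ^ (m - 1)) = 1 := by
    have h1 : ((1 + (p : B) ^ (m - 1) : B) : ℂ) = 1 + (p : ℂ) ^ (m - 1) := by
      push_cast
      rfl
    rw [← h1]
    apply val_of_res
    rw [map_add, map_one, map_pow, map_natCast (IsLocalRing.residue B), hp0]
    rcases Nat.lt_or_ge 1 m with h4 | h4
    · rw [zero_pow (by omega), add_zero]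
      exact one_ne_zero
    · have h5 : m = 1 := by omega
      subst h5
      rw [Nat.sub_self, pow_zero]
      have h6 := hnk 2 (fun h => hp2 ((Nat.prime_dvd_prime_iff_eq hp Nat.prime_two).1 h))
      intro h7
      apply h6
      push_cast
      linear_combination h7
  -- the sum
  have h3B : IsUnit ((3 : ℕ) : B) := by
    rw [← IsLocalRing.residue_ne_zero_iff_isUnit, map_natCast]
    exact hnk 3 hpd3
  obtain ⟨ν, hν⟩ := h3B.exists_right_inv
  have hνC : ∀ a : ℕ, (((a : B) * ν : B) : ℂ) = (a : ℂ) / 3 := by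
    intro a
    have h1 : (3 : ℂ) * (ν : ℂ) = 1 := by
      have := congrArg (Subtype.val) hν
      push_cast at this
      exact this
    push_cast
    field_simp
    linear_combination (a : ℂ) * h1
  have hνk : ∀ a : ℕ, ρ ((a : B) * ν) = (a : IsLocalRing.ResidueField B) / (3 : ℕ) := by
    intro a
    have h1 : ((3 : ℕ) : IsLocalRing.ResidueField B) * ρ ν = 1 := by
      have := congrArg ρ hν
      rwa [map_mul, map_natCast, map_one] at this
    have h2 := hnk 3 hpd3
    rw [map_mul, map_natCast, eq_div_iff h2]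
    linear_combination (a : IsLocalRing.ResidueField B) * h1
  set TB : B := aeval (((1 : ℕ) : B) * ν) (FF m) - aeval (((2 : ℕ) : B) * ν) (FF m) with hTB
  have e1 : (TB : ℂ) = ((m.factorial : ℕ) : ℂ) * ((((Polynomial.bernoulli m).eval ((1 : ℚ) / 3) : ℚ) : ℂ) -
        (((Polynomial.bernoulli m).eval ((2 : ℚ) / 3) : ℚ) : ℂ)) := by
    have h1 : (TB : ℂ) = B.subtype TB := rfl
    rw [h1, hTB, map_sub]
    have h2 : ∀ a : ℕ, B.subtype (aeval ((a : B) * ν) (FF m)) = aeval (((a : ℚ) / 3 : ℚ) : ℂ) (FF m) := by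
      intro a
      have h3 : B.subtype (aeval ((a : B) * ν) (FF m)) = aeval (B.subtype ((a : B) * ν)) (FF m) :=
        (Polynomial.aeval_algHom_apply B.subtype.toIntAlgHom ((a : B) * ν) (FF m)).symm
      have h4 : B.subtype ((a : B) * ν) = (((a : ℚ) / 3 : ℚ) : ℂ) := by
        have := hνC a
        push_cast
        exact this
      rw [h3, h4]
    rw [h2, h2, FF_eval, FF_eval]
    push_cast
    ring
  have e2 : ρ TB ≠ 0 := by
    have h2 : ∀ a : ℕ, ρ (aeval ((a : B) * ν) (FF m)) =
        aeval ((((a * 3 ^ (p - 2)) % p : ℕ)) : IsLocalRing.ResidueField B) (FF m) := by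
      intro a
      have h3 : ρ (aeval ((a : B) * ν) (FF m)) = aeval (ρ ((a : B) * ν)) (FF m) :=
        (Polynomial.aeval_algHom_apply ρ.toIntAlgHom ((a : B) * ν) (FF m)).symm
      rw [h3, hνk, inv_cast hp hpd3]
    have h9 : ∀ X : ℕ, aeval ((X : ℕ) : IsLocalRing.ResidueField B) (FF m) =
        ((m.factorial : ℕ) : IsLocalRing.ResidueField B) *
          ((m : ℕ) * ((ps p (m - 1) X : ℕ) : IsLocalRing.ResidueField B)) := by
      intro X
      rw [ps_cast p]
      exact FF_nat m X hm1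
    rw [hTB, map_sub, h2, h2, h9, h9]
    intro h0
    have hmk := hnk m hpm
    have hfk := hnk _ hpf
    rw [one_mul] at h0
    have h4 : ((m.factorial : ℕ) : IsLocalRing.ResidueField B) * ((m : ℕ) : IsLocalRing.ResidueField B) *
        (((ps p (m - 1) (3 ^ (p - 2) % p) : ℕ) : IsLocalRing.ResidueField B) -
          ((ps p (m - 1) (2 * 3 ^ (p - 2) % p) : ℕ) : IsLocalRing.ResidueField B)) = 0 := by
      linear_combination h0
    have h5 := sub_eq_zero.1 ((mul_eq_zero.1 h4).resolve_left (mul_ne_zero hfk hmk))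
    have h6 := (CharP.natCast_eq_natCast (R := IsLocalRing.ResidueField B) p).1 h5
    have hlt : ∀ e n, ps p e n < p := by
      intro e n
      cases n with
      | zero => exact hp.pos
      | succ n => exact Nat.mod_lt _ hp.pos
    have h7 := Nat.ModEq.eq_of_lt_of_lt h6 (hlt _ _) (hlt _ _)
    have h8 : (ps p (m - 1) (3 ^ (p - 2) % p) != ps p (m - 1) (2 * 3 ^ (p - 2) % p)) = true := hg
    rw [h7] at h8
    simp at h8
  have hT : B.valuation (TB : ℂ) = 1 := val_of_res B _ e2
  rw [e1, map_mul, nat_val hp hB hpf, one_mul] at hT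
  have h3v : B.valuation (3 : ℂ) = 1 := by
    have := nat_val hp hB hpd3
    exact_mod_cast this
  rw [map_div₀, map_mul, map_mul, map_pow, hE, hT, h3v, nat_val hp hB hpm]
  simp

end Pool.Agent.R480.PT
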