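import Mathlib
import Pool.Agent.R480.PT.One
import Pool.Agent.Results.MP_c2a07f_nt.FiveAndPowersOfThree

/-!
# All levels `3^K` for a prime that satisfies the criterion
-/

set_option autoImplicit false

namespace Pool.Agent.R480.PT

open Finset Pool.Agent.Y18.GX
open Pool.Agent.Results.MP_c2a07f_nt.FiveAndPowersOfThree (genBernoulli lValue lValue_eq part_one)

/-- the unit property at all places above `p` -/
def UnitAt (p : ℕ) (z : ℂ) : Prop := Pool.Agent.Results.MP_c2a07f_nt.FiveAndPowersOfThree.IsUnitAt p z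

lemma part_big {p K₀ : ℕ} (hp : p.Prime) (hp9 : p % 9 = 2 ∨ p % 9 = 5) (h5 : 5 ≤ p)
    (hc : crit p K₀ = true) (hK₀ : 9 * (p - 1) ≤ 3 ^ (K₀ + 1)) (K m N : ℕ) (hN : N = 1 * 3 ^ K)
    (hK : 2 ≤ K) (hm1 : 1 ≤ m) (hmp : m < p) (ψ : DirichletCharacter ℂ N) (hc3 : 3 ^ K ∣ ψ.conductor)
    (hpar : ψ (-1) = (-1) ^ m) : UnitAt p (lValue p m ψ) := by
  subst hN
  have hp3 : ¬ p ∣ 3 := by
    intro h
    have := (Nat.prime_dvd_prime_iff_eq hp Nat.prime_three).1 h
    omega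
  have hpn3 : p ≠ 3 := fun h => hp3 (h ▸ dvd_rfl)
  have hpp1 : ¬ p ∣ 1 := fun h => by
    have := Nat.dvd_one.1 h
    omega
  have hsq : p ^ 2 % 9 = 4 ∨ p ^ 2 % 9 = 7 := by
    rw [Nat.pow_mod]
    rcases hp9 with h | h <;> rw [h] <;> norm_num
  have hsq1 : 1 ≤ p ^ 2 := Nat.one_le_pow _ _ hp.pos
  by_cases hs : 3 ^ K < 9 * m
  · have hKK : K ≤ K₀ := by
      have h1 : 3 ^ K < 3 ^ (K₀ + 1) := by omega
      have := (Nat.pow_lt_pow_iff_right (by norm_num : 1 < 3)).1 h1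
      omega
    have hm2 : m ≠ 1 := by
      rintro rfl
      have : 3 ^ 2 ≤ 3 ^ K := Nat.pow_le_pow_right (by norm_num) hK
      omega
    have hg := crit_good hc hK hKK hm1 hmp hs
    have hcop : Nat.Coprime 1 (3 ^ K) := Nat.coprime_one_left _
    have hprim := snd_prim hcop Nat.prime_three hK one_ne_zero ψ hc3
    have hN1 : 1 * 3 ^ K ≠ 1 := by
      rw [one_mul]
      exact (Nat.one_lt_pow (by omega) (by norm_num)).ne'
    have hψ1 : ψ ≠ 1 := by
      have : NeZero (1 * 3 ^ K) := ⟨by positivity⟩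
      intro h
      rw [h, DirichletCharacter.conductor_one] at hc3
      have := Nat.dvd_one.1 hc3
      exact (Nat.one_lt_pow (by omega) (by norm_num : 1 < 3)).ne' this
    have hfst : ∀ a, fst hcop ψ a = 1 := fun a => by rw [Subsingleton.elim (α := ZMod 1) a 1, map_one]
    have hsum : ∑ a ∈ range (1 * 3 ^ K), fst hcop ψ (a : ZMod 1) * snd hcop ψ (a : ZMod (3 ^ K)) = 0 := by
      rw [← sum_char (by positivity) ψ hψ1]
      exact Finset.sum_congr rfl fun a _ => (dec_nat hcop ψ a).symm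
    have key := unit_gen hp (g := 2) (m := m) (fst hcop ψ) (snd hcop ψ) Nat.prime_three hK
      (fun a => by rw [hfst, one_pow]) hprim hpp1 hpn3
      (by rw [← dec_neg, hpar]) hm1 hmp
      (fun k _ _ χ₁ χ₂ _ h2 h3 => ⟨small hp hp9 (by omega) hK hm1 hmp hg χ₁ χ₂ h2 h3,
        fun h => absurd h hm2⟩) hsum
    simp only [← dec_nat] at key
    rw [lValue_eq hN1]
    exact key
  · refine part_one (p := p) hp h5 (Or.inr rfl) (N₁ := 1) (g := 2) (n := 1) (by norm_num)
      hpp1 (by decide) (by norm_num) (by rw [pow_one]; omega) (by norm_num; omega) hm1 (by omega) ?_ ψ hc3 hpar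
    have h1 : m * 1 * 3 ^ (2 * 1) = m * 9 := by norm_num
    rw [h1]
    omega

theorem main {p K₀ : ℕ} (hp : p.Prime) (hp9 : p % 9 = 2 ∨ p % 9 = 5) (h5 : 5 ≤ p)
    (hc : crit p K₀ = true) (hK₀ : 9 * (p - 1) ≤ 3 ^ (K₀ + 1)) (K m : ℕ)
    (hK : 1 ≤ K) (hm1 : 1 ≤ m) (hmp : m < p) (ψ : DirichletCharacter ℂ (3 ^ K)) (hprim : ψ.IsPrimitive)
    (hpar : ψ (-1) = (-1) ^ m) : UnitAt p (lValue p m ψ) := by
  rcases Nat.lt_or_ge K 2 with hK2 | hK2
  · have h1 : K = 1 := by omega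
    subst h1
    have hψ1 : ψ ≠ 1 := by
      intro h
      rw [h, DirichletCharacter.isPrimitive_def, DirichletCharacter.conductor_one] at hprim
      norm_num at hprim
    have hψ2 : ψ 2 = -1 := by
      have h2 : ψ 2 ^ 2 = 1 := by
        rw [← map_pow]
        have : (2 : ZMod (3 ^ 1)) ^ 2 = 1 := by decide
        rw [this, map_one]
      have h2' : (ψ 2 - 1) * (ψ 2 + 1) = 0 := by linear_combination h2
      rcases mul_eq_zero.1 h2' with h3 | h3
      · rw [sub_eq_zero] at h3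
        exfalso
        apply hψ1
        ext U
        have h4 : ∀ x : ZMod (3 ^ 1), IsUnit x → x = 1 ∨ x = 2 := by decide
        rcases h4 U U.isUnit with h5 | h5
        · rw [h5, map_one, MulChar.one_apply isUnit_one]
        · rw [h5, h3]
          have : IsUnit (2 : ZMod (3 ^ 1)) := h5 ▸ U.isUnit
          rw [MulChar.one_apply this]
      · exact eq_neg_of_add_eq_zero_left h3
    have hneg : (-1 : ZMod (3 ^ 1)) = 2 := by decide
    rw [hneg, hψ2] at hpar
    have hmodd : Odd m := by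
      rcases Nat.even_or_odd m with h | h
      · rw [h.neg_one_pow] at hpar
        norm_num at hpar
      · exact h
    have hpc : ((p : ℕ) : ZMod (3 ^ 1)) = 2 := by
      have h6 : ((p : ℕ) : ZMod (3 ^ 1)) = ((2 : ℕ) : ZMod (3 ^ 1)) := by
        rw [ZMod.natCast_eq_natCast_iff']
        norm_num
        omega
      rw [h6]
      rfl
    have h33 : (3 : ℕ) ^ 1 ≠ 1 := by norm_num
    rw [lValue_eq h33, hpc, hψ2]
    have h0 : ψ ((0 : ℕ) : ZMod (3 ^ 1)) = 0 := by
      rw [Nat.cast_zero]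
      exact DirichletCharacter.map_zero' ψ h33
    have h1 : ψ ((1 : ℕ) : ZMod (3 ^ 1)) = 1 := by rw [Nat.cast_one, map_one]
    have h2 : ψ ((2 : ℕ) : ZMod (3 ^ 1)) = -1 := by
      have : ((2 : ℕ) : ZMod (3 ^ 1)) = 2 := by decide
      rw [this, hψ2]
    have hr : range (3 ^ 1) = {0, 1, 2} := by decide
    rw [hr, Finset.sum_insert (by decide), Finset.sum_insert (by decide), Finset.sum_singleton, h0, h1, h2]
    have hg := crit_good1 hc hmodd hmp
    have hval := fun B hB => val_one hp (by omega) (by rintro rfl; omega) hmodd hmp hg B hB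
    have e : (1 - -1 * (p : ℂ) ^ (m - 1)) * (((3 ^ 1 : ℕ) : ℂ) ^ (m - 1) *
        (0 * ((((Polynomial.bernoulli m).eval (((0 : ℕ) : ℚ) / ((3 ^ 1 : ℕ) : ℚ)) : ℚ) : ℂ)) +
          (1 * ((((Polynomial.bernoulli m).eval (((1 : ℕ) : ℚ) / ((3 ^ 1 : ℕ) : ℚ)) : ℚ) : ℂ)) +
          -1 * ((((Polynomial.bernoulli m).eval (((2 : ℕ) : ℚ) / ((3 ^ 1 : ℕ) : ℚ)) : ℚ) : ℂ))))) / m =
        (1 + (p : ℂ) ^ (m - 1)) * ((3 : ℂ) ^ (m - 1) *
      ((((Polynomial.bernoulli m).eval ((1 : ℚ) / 3) : ℚ) : ℂ) -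
        (((Polynomial.bernoulli m).eval ((2 : ℚ) / 3) : ℚ) : ℂ))) / m := by
      push_cast
      norm_num
      ring
    rw [e]
    refine unit_of_val hp ?_ hval
    intro h0
    obtain ⟨B, hB⟩ := exists_over hp
    have h1 := hval B hB
    rw [h0, map_zero] at h1
    exact zero_ne_one h1
  · have hN : 3 ^ K = 1 * 3 ^ K := (one_mul _).symm
    exact part_big hp hp9 h5 hc hK₀ K m (3 ^ K) hN hK2 hm1 hmp ψ
      (by rw [DirichletCharacter.isPrimitive_def] at hprim; rw [hprim]) hpar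

end Pool.Agent.R480.PT
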