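import Mathlib
import Pool.Agent.R480.PT.Crit

/-! # The criterion for 18 primes -/

set_option autoImplicit false

namespace Pool.Agent.R480.PT

theorem crit_11 : crit 11 4 = true := by decide +kernel

theorem crit_29 : crit 29 5 = true := by decide +kernel

theorem crit_41 : crit 41 5 = true := by decide +kernel

theorem crit_59 : crit 59 5 = true := by decide +kernel

theorem crit_83 : crit 83 6 = true := by decide +kernel

theorem crit_101 : crit 101 6 = true := by decide +kernel

theorem crit_131 : crit 131 6 = true := by decide +kernel

theorem crit_137 : crit 137 6 = true := by decide +kernel

theorem crit_149 : crit 149 6 = true := by decide +kernel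

theorem crit_167 : crit 167 6 = true := by decide +kernel

theorem crit_173 : crit 173 6 = true := by decide +kernel

theorem crit_191 : crit 191 6 = true := by decide +kernel

theorem crit_227 : crit 227 6 = true := by decide +kernel

theorem crit_239 : crit 239 6 = true := by decide +kernel

theorem crit_293 : crit 293 7 = true := by decide +kernel

theorem crit_311 : crit 311 7 = true := by decide +kernel

theorem crit_383 : crit 383 7 = true := by decide +kernel

theorem crit_389 : crit 389 7 = true := by decide +kernel

end Pool.Agent.R480.PT
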